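import Mathlib
import Pool.Agent.H425R3.MS.A7

namespace Pool.Agent.Results.MP_bc6037_nt.MeanSquare

open Classical in
/-- Mean square, with a power saving and an explicit constant, of the error term
`Δ_2(x) = ∑_{j ≤ x} d_2(j) - x (log x + 2γ - 1)` (`d_2 = ζ * ζ`) of the Piltz divisor problem for `k = 2` along
the values `P(n) = an² + bn + c` of a quadratic polynomial (`a` a positive integer, `b`, `c` real,
`P(n) > 0` for `n ≥ 0`), for instance along the squares, `P(n) = (n+1)²`: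
`∑_{n < N} Δ_2(P(n))² = (√a/(4π²)) (S² + T/2) N² + O(N^{2-δ})` for some `δ > 0`, where `S` is the sum of
`d(m) m^{-3/4} cos(2π b √(m/a) - π/4)` over the `m` for which `am` is a square, and `T` the sum of
`d(m)² m^{-3/2}` over the other `m`. -/
theorem result (D : ℝ → ℝ)
    (hD : ∀ x : ℝ, D x =
      (∑ j ∈ Finset.Icc 1 ⌊x⌋₊, (((ArithmeticFunction.zeta ^ 2 : ArithmeticFunction ℕ) j : ℕ) : ℝ))
        - x * (Real.log x + 2 * Real.eulerMascheroniConstant - 1))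
    (a : ℕ) (b c : ℝ) (ha : 0 < a) (hP : ∀ n : ℕ, 0 < (a : ℝ) * (n : ℝ) ^ 2 + b * n + c) :
    ∃ δ : ℝ, 0 < δ ∧ ∃ (C : ℝ) (N₀ : ℕ), ∀ N : ℕ, N₀ ≤ N →
      |∑ n ∈ Finset.range N, D ((a : ℝ) * (n : ℝ) ^ 2 + b * n + c) ^ 2
        - √(a : ℝ) / (4 * Real.pi ^ 2) *
          ((∑' m : ℕ, if IsSquare (a * m) then
              (m.divisors.card : ℝ) * (m : ℝ) ^ (-(3 / 4) : ℝ)
                * Real.cos (2 * Real.pi * b * √((m : ℝ) / a) - Real.pi / 4) else 0) ^ 2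
            + 1 / 2 * ∑' m : ℕ, if IsSquare (a * m) then 0 else
              (m.divisors.card : ℝ) ^ 2 * (m : ℝ) ^ (-(3 / 2) : ℝ)) * (N : ℝ) ^ 2|
        ≤ C * (N : ℝ) ^ (2 - δ) :=
  Pool.Agent.H425R3.MS.div_ms2 D hD a b c ha hP

end Pool.Agent.Results.MP_bc6037_nt.MeanSquare
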