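import Mathlib
import Pool.Agent.H425R3.JL.C3
import Pool.Agent.H425R3.PK.Zeta2

open Filter Topology MeasureTheory

namespace Pool.Agent.Results.MP_bc6037_nt.MultiplicativeOrthogonality

open Classical in
/-- The error term `Δ_2` of the Piltz divisor problem for `k = 2` at the squares does not correlate with
any multiplicative function. Let `E(x) = Δ_2(x)/x^{1/4}`, where
`Δ_2(x) = ∑_{j ≤ x} d_2(j) - x (log x + 2γ - 1)`, `d_2 = ζ * ζ`, and let
`P_i(n) = a_i n² + b_i n + c_i` (`i < r`) be quadratic polynomials with positive integers `a_i` and real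
`b_i`, `c_i`, positive at `n = 1, 2, …` (for instance `P(n) = n²`). There is a
probability measure `μ` on `ℝ^r`, with finite second moment, whose one-dimensional marginals have
densities that extend to entire functions and give positive mass to every open interval, such that,
uniformly over all multiplicative functions `g` with `|g| ≤ 1`, for every continuous `f` of at most
quadratic growth `∑_{n ≤ N} g(n) f(E(P_1(n)), …, E(P_r(n))) = (∫ f dμ) ∑_{n ≤ N} g(n) + o(N)`, and for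
every set `A` with `μ(∂A) = 0` the sum of `g(n)` over the `n ≤ N` with `(E(P_i(n)))_i ∈ A` is
`μ(A) ∑_{n ≤ N} g(n) + o(N)`. -/
theorem result (E : ℝ → ℝ)
    (hE : ∀ x : ℝ, E x =
      ((∑ j ∈ Finset.Icc 1 ⌊x⌋₊, (((ArithmeticFunction.zeta ^ 2 : ArithmeticFunction ℕ) j : ℕ) : ℝ))
        - x * (Real.log x + 2 * Real.eulerMascheroniConstant - 1)) / x ^ (1 / 4 : ℝ))
    (r : ℕ) (a : Fin r → ℕ) (b c : Fin r → ℝ) (ha : ∀ i, 0 < a i)
    (hP : ∀ i, ∀ n : ℕ, 1 ≤ n → 0 < (a i : ℝ) * (n : ℝ) ^ 2 + b i * n + c i) :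
    ∃ μ : ProbabilityMeasure (Fin r → ℝ),
      Integrable (fun x : Fin r → ℝ => ∑ i, x i ^ 2) (μ : Measure (Fin r → ℝ)) ∧
      (∀ i, ∃ g : ℂ → ℂ, Differentiable ℂ g ∧ (∀ x : ℝ, 0 ≤ (g x).re ∧ (g x).im = 0) ∧
        (μ : Measure (Fin r → ℝ)).map (fun x => x i) =
          volume.withDensity (fun x : ℝ => ENNReal.ofReal (g x).re) ∧
        ∀ u v : ℝ, u < v → 0 < (μ : Measure (Fin r → ℝ)) {x | u < x i ∧ x i < v}) ∧
      (∀ f : (Fin r → ℝ) → ℝ, Continuous f → (∃ C : ℝ, ∀ x, |f x| ≤ C * (1 + ∑ i, x i ^ 2)) →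
        ∀ η : ℝ, 0 < η → ∃ N₀ : ℕ, ∀ N : ℕ, N₀ ≤ N → ∀ g : ℕ → ℂ, (∀ n, ‖g n‖ ≤ 1) →
          (∀ m n : ℕ, m.Coprime n → g (m * n) = g m * g n) →
          ‖∑ n ∈ Finset.Icc 1 N, g n * ((f (fun i => E ((a i : ℝ) * (n : ℝ) ^ 2 + b i * n + c i))
            - ∫ x, f x ∂(μ : Measure (Fin r → ℝ)) : ℝ) : ℂ)‖ ≤ η * N) ∧
      (∀ A : Set (Fin r → ℝ), (μ : Measure (Fin r → ℝ)) (frontier A) = 0 →
        ∀ η : ℝ, 0 < η → ∃ N₀ : ℕ, ∀ N : ℕ, N₀ ≤ N → ∀ g : ℕ → ℂ, (∀ n, ‖g n‖ ≤ 1) →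
          (∀ m n : ℕ, m.Coprime n → g (m * n) = g m * g n) →
          ‖∑ n ∈ (Finset.Icc 1 N).filter (fun n : ℕ =>
              (fun i => E ((a i : ℝ) * (n : ℝ) ^ 2 + b i * n + c i)) ∈ A), g n
            - (μ : Measure (Fin r → ℝ)).real A * ∑ n ∈ Finset.Icc 1 N, g n‖ ≤ η * N) := by
  have hEc : E = Pool.Agent.H425R3.JL.Edv := Pool.Agent.H425R3.PK.E_eq E hE
  subst hEc
  exact Pool.Agent.H425R3.JL.final_mult Pool.Agent.H425R3.JL.div_data a b c ha hP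

end Pool.Agent.Results.MP_bc6037_nt.MultiplicativeOrthogonality
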