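import Mathlib
import Pool.Agent.H425R3.PK.Zeta2

open Filter Topology MeasureTheory

namespace Pool.Agent.Results.MP_bc6037_nt.PrimeSquares

open Classical in
/-- The error term `Δ_2` of the Piltz divisor problem for `k = 2` along squares of primes. Let
`E(x) = Δ_2(x)/x^{1/4}`, where `Δ_2(x) = ∑_{j ≤ x} d_2(j) - x (log x + 2γ - 1)` and `d_2 = ζ * ζ` (the number
of ordered pairs with product `j`), and let
`P_i(n) = a_i n² + b_i n + c_i` (`i < r`) be quadratic polynomials with positive integers `a_i` and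
real `b_i`, `c_i`, positive at `n = 1, 2, …` (for instance `P(n) = n²`). Then the vectors
`(E(P_1(p)), …, E(P_r(p)))`, `p` running through the primes, have a joint limit law `μ` on `ℝ^r`,
it is the same as the joint limit law of `(E(P_1(n)), …, E(P_r(n)))` for `n = 1, 2, 3, …`, and every
one-dimensional marginal of `μ` has a density that extends to an entire function and gives positive
mass to every open interval. The convergence holds for the averages of all continuous functions of at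
most quadratic growth and for the proportions of all sets `A` with `μ(∂A) = 0`. -/
theorem result (E : ℝ → ℝ)
    (hE : ∀ x : ℝ, E x =
      ((∑ j ∈ Finset.Icc 1 ⌊x⌋₊, (((ArithmeticFunction.zeta ^ 2 : ArithmeticFunction ℕ) j : ℕ) : ℝ))
        - x * (Real.log x + 2 * Real.eulerMascheroniConstant - 1)) / x ^ (1 / 4 : ℝ))
    (r : ℕ) (a : Fin r → ℕ) (b c : Fin r → ℝ) (ha : ∀ i, 0 < a i)
    (hP : ∀ i, ∀ n : ℕ, 1 ≤ n → 0 < (a i : ℝ) * (n : ℝ) ^ 2 + b i * n + c i) :
    ∃ μ : ProbabilityMeasure (Fin r → ℝ),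
      Integrable (fun x : Fin r → ℝ => ∑ i, x i ^ 2) (μ : Measure (Fin r → ℝ)) ∧
      (∀ i, ∃ g : ℂ → ℂ, Differentiable ℂ g ∧ (∀ x : ℝ, 0 ≤ (g x).re ∧ (g x).im = 0) ∧
        (μ : Measure (Fin r → ℝ)).map (fun x => x i) =
          volume.withDensity (fun x : ℝ => ENNReal.ofReal (g x).re) ∧
        ∀ u v : ℝ, u < v → 0 < (μ : Measure (Fin r → ℝ)) {x | u < x i ∧ x i < v}) ∧
      (∀ f : (Fin r → ℝ) → ℝ, Continuous f → (∃ C : ℝ, ∀ x, |f x| ≤ C * (1 + ∑ i, x i ^ 2)) →
        Tendsto (fun N : ℕ => (∑ n ∈ Finset.Icc 1 N,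
            f (fun i => E ((a i : ℝ) * (n : ℝ) ^ 2 + b i * n + c i))) / N)
          atTop (𝓝 (∫ x, f x ∂(μ : Measure (Fin r → ℝ)))) ∧
        Tendsto (fun N : ℕ => (∑ p ∈ (Finset.Icc 1 N).filter Nat.Prime,
            f (fun i => E ((a i : ℝ) * (p : ℝ) ^ 2 + b i * p + c i)))
              / ((Finset.Icc 1 N).filter Nat.Prime).card)
          atTop (𝓝 (∫ x, f x ∂(μ : Measure (Fin r → ℝ))))) ∧
      (∀ A : Set (Fin r → ℝ), (μ : Measure (Fin r → ℝ)) (frontier A) = 0 →
        Tendsto (fun N : ℕ => (((Finset.Icc 1 N).filter (fun n : ℕ =>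
            (fun i => E ((a i : ℝ) * (n : ℝ) ^ 2 + b i * n + c i)) ∈ A)).card : ℝ) / N)
          atTop (𝓝 ((μ : Measure (Fin r → ℝ)).real A)) ∧
        Tendsto (fun N : ℕ => (((Finset.Icc 1 N).filter (fun p : ℕ => p.Prime ∧
            (fun i => E ((a i : ℝ) * (p : ℝ) ^ 2 + b i * p + c i)) ∈ A)).card : ℝ)
              / ((Finset.Icc 1 N).filter Nat.Prime).card)
          atTop (𝓝 ((μ : Measure (Fin r → ℝ)).real A))) := by
  have hEc : E = Pool.Agent.H425R3.JL.Edv := Pool.Agent.H425R3.PK.E_eq E hE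
  subst hEc
  exact Pool.Agent.H425R3.JL.final_gen Pool.Agent.H425R3.JL.div_data a b c ha hP

end Pool.Agent.Results.MP_bc6037_nt.PrimeSquares
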